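import Pool.Agent.H24.RD.Targets

set_option autoImplicit false

/-!
# MP_c65535_nt, module FIN: the last step
-/

namespace Pool.Agent.H81.RD

open Pool.Agent.H24.RD NumberField Height Finset

section heights

variable {Ω : Type} [Field Ω] [CharZero Ω] [Algebra.IsAlgebraic ℚ Ω]

theorem habs_one (hHB : T_HB) : absLogHeight₁ (1 : Ω) = 0 := by
  have h := (hHB Ω).2.2.2.1 (1 : Ω) 0
  rwa [pow_zero, Nat.cast_zero, zero_mul] at h

theorem habs_zpow (hHB : T_HB) (x : Ω) (m : ℤ) :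
    absLogHeight₁ (x ^ m) = |(m : ℝ)| * absLogHeight₁ x := by
  obtain ⟨-, -, hinv, hpow, -, -, -⟩ := hHB Ω
  cases m with
  | ofNat n =>
    rw [Int.ofNat_eq_natCast, zpow_natCast, hpow, Int.cast_natCast, Nat.abs_cast]
  | negSucc n =>
    rw [zpow_negSucc, hinv, hpow, Int.cast_negSucc, abs_neg, Nat.abs_cast]

theorem habs_prod (hHB : T_HB) {ι : Type} (s : Finset ι) (f : ι → Ω) :
    absLogHeight₁ (∏ i ∈ s, f i) ≤ ∑ i ∈ s, absLogHeight₁ (f i) := by
  classical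
  induction s using Finset.induction_on with
  | empty => rw [prod_empty, sum_empty, habs_one hHB]
  | insert a s ha ih =>
    rw [prod_insert ha, sum_insert ha]
    exact ((hHB Ω).2.1 _ _).trans (add_le_add_right ih _)

end heights

/-- the level field is contained in a cyclotomic extension of the bottom level field -/
theorem Lv_le {F Ω : Type} [Field F] [Field Ω] [Algebra F Ω] {r : ℕ} (γ : Fin r → F)
    {N0 N' : ℕ} (h0 : 0 < N0) (h' : 0 < N') (hc : N0.Coprime N') (z : Ω)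
    (hz : z ∈ Lv F Ω γ (N0 * N') N0) :
    z ∈ IntermediateField.adjoin (Lv F Ω γ N0 N0) {z : Ω | z ^ N' = 1} := by
  have hle : Lv F Ω γ (N0 * N') N0 ≤ IntermediateField.restrictScalars F
      (IntermediateField.adjoin (Lv F Ω γ N0 N0) {z : Ω | z ^ N' = 1}) := by
    unfold Lv
    rw [IntermediateField.adjoin_le_iff]
    have key : ∀ w : Ω, w ∈ Lv F Ω γ N0 N0 →
        w ∈ IntermediateField.adjoin (Lv F Ω γ N0 N0) {z : Ω | z ^ N' = 1} := fun w hw =>
      (IntermediateField.adjoin (Lv F Ω γ N0 N0) {z : Ω | z ^ N' = 1}).algebraMap_mem ⟨w, hw⟩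
    rintro w (hw | ⟨i, hw⟩)
    · have hw0 : w ≠ 0 := by
        rintro rfl
        rw [zero_pow (Nat.mul_pos h0 h').ne'] at hw
        exact zero_ne_one hw
      have hb : ((N0.gcd N' : ℕ) : ℤ) = N0 * Nat.gcdA N0 N' + N' * Nat.gcdB N0 N' :=
        Nat.gcd_eq_gcd_ab N0 N'
      rw [hc.gcd_eq_one, Nat.cast_one] at hb
      have e1 : w = w ^ ((N' : ℤ) * Nat.gcdB N0 N') * w ^ ((N0 : ℤ) * Nat.gcdA N0 N') := by
        rw [← zpow_add₀ hw0, add_comm, ← hb, zpow_one]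
      have e2 : (w ^ ((N' : ℤ) * Nat.gcdB N0 N')) ^ N0 = 1 := by
        rw [← zpow_natCast, ← zpow_mul, mul_right_comm, zpow_mul, mul_comm ((N' : ℕ) : ℤ),
          ← Nat.cast_mul, zpow_natCast, hw, one_zpow]
      have e3 : (w ^ ((N0 : ℤ) * Nat.gcdA N0 N')) ^ N' = 1 := by
        rw [← zpow_natCast, ← zpow_mul, mul_right_comm, zpow_mul,
          ← Nat.cast_mul, zpow_natCast, hw, one_zpow]
      show w ∈ IntermediateField.adjoin (Lv F Ω γ N0 N0) {z : Ω | z ^ N' = 1}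
      rw [e1]
      refine mul_mem (key _ ?_) (IntermediateField.subset_adjoin _ _ e3)
      exact IntermediateField.subset_adjoin _ _ (Or.inl e2)
    · exact key w (IntermediateField.subset_adjoin _ _ (Or.inr ⟨i, hw⟩))
  exact hle hz

theorem pf_FIN : T_HA → T_HB → T_LVB → T_FR → T_DIR → T_FIN := by
  intro _ hHB hLVB hFR hDIR F Ω _ _ _ _ _ _ _ r γ hγ ℓ N0 hℓ hN0
  have : Algebra.IsAlgebraic ℚ Ω := Algebra.IsAlgebraic.trans ℚ F Ω
  obtain ⟨hnn, hmul, hinv, hpow, -, -, -⟩ := hHB Ω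
  obtain ⟨hfd, -⟩ := hLVB F Ω r γ hγ.1 N0 N0 hN0 hN0
  have := hfd
  have : FiniteDimensional ℚ (Lv F Ω γ N0 N0) := FiniteDimensional.trans ℚ F (Lv F Ω γ N0 N0)
  have : NumberField (Lv F Ω γ N0 N0) := ⟨⟩
  have : Algebra.IsAlgebraic (Lv F Ω γ N0 N0) Ω := Algebra.IsAlgebraic.tower_top (K := F) _
  obtain ⟨cB, hcB, hFR'⟩ := hFR (Lv F Ω γ N0 N0) Ω ℓ hℓ
  -- constants
  set G : Fin r → Ω := fun i => algebraMap F Ω (γ i) with hG
  have hG0 : ∀ i, G i ≠ 0 := fun i => (map_ne_zero _).2 (hγ.1 i)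
  set H : ℝ := ∑ i, absLogHeight₁ (G i) with hH
  have hH0 : 0 ≤ H := sum_nonneg fun i _ => hnn _
  obtain ⟨Q, hQ⟩ := exists_nat_gt (2 * H / cB)
  have hQ0 : 0 < Q := by
    rcases Nat.eq_zero_or_pos Q with h | h
    · rw [h, Nat.cast_zero] at hQ
      exact absurd hQ (not_lt.2 (by positivity))
    · exact h
  have hQR : (0 : ℝ) < Q := by exact_mod_cast hQ0
  have hHQ : 1 / (Q : ℝ) * H ≤ cB / 2 := by
    rw [div_lt_iff₀ hcB] at hQ
    rw [one_div, inv_mul_le_iff₀ hQR]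
    linarith
  refine ⟨cB / (2 * (Q : ℝ) ^ r), by positivity, ?_⟩
  intro N' hlN' hcop α ⟨β, hβ, hβ0, g, ⟨hg0, n, hn, x, hgx⟩, hα⟩ hαD
  have hN' : 0 < N' := by
    rcases Nat.eq_zero_or_pos N' with h | h
    · exact absurd (h ▸ dvd_zero ℓ) hlN'
    · exact h
  obtain ⟨k, a, hk1, hkQ, hka⟩ := hDIR r Q hQ0 fun i => (x i : ℝ) / n
  have hnR : (0 : ℝ) < n := by exact_mod_cast hn
  have hkR : (0 : ℝ) < k := by exact_mod_cast hk1
  have hα0 : α ≠ 0 := by
    rw [hα]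
    exact mul_ne_zero hβ0 hg0
  set P : Ω := ∏ i, G i ^ a i with hP
  have hP0 : P ≠ 0 := prod_ne_zero_iff.2 fun i _ => zpow_ne_zero _ (hG0 i)
  have hgx' : g ^ n = ∏ i, G i ^ x i := hgx
  -- the small factor
  set om : Ω := P / g ^ k with hom
  have hom1 : om ^ n = ∏ i, G i ^ ((n : ℤ) * a i - k * x i) := by
    rw [hom, div_pow, ← pow_mul, mul_comm k n, pow_mul, hgx', hP, ← prod_pow, ← prod_pow,
      ← prod_div_distrib]
    refine prod_congr rfl fun i _ => ?_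
    rw [zpow_sub₀ (hG0 i), mul_comm (n : ℤ), zpow_mul, zpow_natCast, mul_comm (k : ℤ), zpow_mul,
      zpow_natCast]
  have hom2 : absLogHeight₁ om ≤ cB / 2 := by
    have h1 : (n : ℝ) * absLogHeight₁ om ≤ ∑ i, |(((n : ℤ) * a i - k * x i : ℤ) : ℝ)| *
        absLogHeight₁ (G i) := by
      rw [← hpow, hom1]
      refine (habs_prod hHB _ _).trans (le_of_eq (sum_congr rfl fun i _ => ?_))
      exact habs_zpow hHB _ _
    have h2 : ∑ i, |(((n : ℤ) * a i - k * x i : ℤ) : ℝ)| * absLogHeight₁ (G i) ≤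
        ∑ i, (n * (1 / (Q : ℝ))) * absLogHeight₁ (G i) := by
      refine sum_le_sum fun i _ => mul_le_mul_of_nonneg_right ?_ (hnn _)
      have h3 := hka i
      have h4 : (((n : ℤ) * a i - k * x i : ℤ) : ℝ) = -(n * ((k : ℝ) * ((x i : ℝ) / n) - a i)) := by
        push_cast
        field_simp
        ring
      rw [h4, abs_neg, abs_mul, Nat.abs_cast]
      exact mul_le_mul_of_nonneg_left h3 hnR.le
    rw [← mul_sum, ← hH, mul_assoc] at h2
    exact (le_of_mul_le_mul_left (h1.trans h2) hnR).trans hHQ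
  -- the element over which the lower bound is known
  set b : Ω := β ^ k * P with hb
  have hbα : b = α ^ k * om := by
    rw [hb, hom, hα, mul_pow]
    field_simp
  have hb0 : b ≠ 0 := mul_ne_zero (pow_ne_zero _ hβ0) hP0
  have hβ' := Lv_le γ hN0 hN' hcop β hβ
  have hbm : b ∈ IntermediateField.adjoin (Lv F Ω γ N0 N0) {z : Ω | z ^ N' = 1} := by
    refine mul_mem (pow_mem hβ' k) (prod_mem fun i _ => zpow_mem ?_ _)
    exact (IntermediateField.adjoin (Lv F Ω γ N0 N0) {z : Ω | z ^ N' = 1}).algebraMap_mem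
      (algebraMap F (Lv F Ω γ N0 N0) (γ i))
  have hbu : ∀ j : ℕ, 0 < j → b ^ j ≠ 1 := by
    intro j hj hbj
    refine hαD ⟨hα0, k * j * n, by positivity, fun i => (j : ℤ) * (k * x i - n * a i), ?_⟩
    have h1 : α ^ (k * j * n) * (om ^ n) ^ j = 1 := by
      have h2 : (b ^ j) ^ n = α ^ (k * j * n) * (om ^ n) ^ j := by
        rw [hbα]
        ring
      rw [← h2, hbj, one_pow]
    have h3 : (om ^ n) ^ j * ∏ i, G i ^ ((j : ℤ) * (k * x i - n * a i)) = 1 := by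
      rw [hom1, ← prod_pow, ← prod_mul_distrib]
      refine prod_eq_one fun i _ => ?_
      rw [← zpow_natCast, ← zpow_mul, ← zpow_add₀ (hG0 i)]
      have e : ((n : ℤ) * a i - k * x i) * (j : ℤ) + (j : ℤ) * (k * x i - n * a i) = 0 := by ring
      rw [e, zpow_zero]
    show α ^ (k * j * n) = ∏ i, G i ^ ((j : ℤ) * (k * x i - n * a i))
    calc α ^ (k * j * n) = α ^ (k * j * n) *
          ((om ^ n) ^ j * ∏ i, G i ^ ((j : ℤ) * (k * x i - n * a i))) := by rw [h3, mul_one]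
      _ = (α ^ (k * j * n) * (om ^ n) ^ j) *
          ∏ i, G i ^ ((j : ℤ) * (k * x i - n * a i)) := (mul_assoc _ _ _).symm
      _ = _ := by rw [h1, one_mul]
  have hfin := hFR' N' hlN' b hbm hb0 hbu
  have hup : absLogHeight₁ b ≤ k * absLogHeight₁ α + cB / 2 := by
    rw [hbα]
    refine (hmul _ _).trans ?_
    rw [hpow]
    exact add_le_add_right hom2 _
  have hkQ' : (k : ℝ) ≤ (Q : ℝ) ^ r := by exact_mod_cast hkQ
  rw [div_le_iff₀ (by positivity)]
  have h5 : cB / 2 ≤ k * absLogHeight₁ α := by linarith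
  have h6 : (k : ℝ) * absLogHeight₁ α ≤ (Q : ℝ) ^ r * absLogHeight₁ α :=
    mul_le_mul_of_nonneg_right hkQ' (hnn _)
  linarith

end Pool.Agent.H81.RD
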