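import Pool.Agent.H24.RD.Targets

set_option autoImplicit false

/-!
# MP_c65535_nt, module WT: a wild element moves every element only slightly
-/

namespace Pool.Agent.H81.RD

open Pool.Agent.H24.RD NumberField Height Finset

/-- differences of values of integral polynomials -/
theorem aeval_sub_le {M : Type} [Field M] {v : AbsoluteValue M ℝ} (hna : IsNonarchimedean v)
    (hZ : ∀ m : ℤ, v (m : M) ≤ 1) {a b : M} (ha : v a ≤ 1) (hb : v b ≤ 1) (Y : Polynomial ℤ) :
    v (Polynomial.aeval a Y - Polynomial.aeval b Y) ≤ v (a - b) := by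
  have hpow : ∀ n : ℕ, v (a ^ n - b ^ n) ≤ v (a - b) := by
    intro n
    induction n with
    | zero =>
      rw [pow_zero, pow_zero, sub_self, map_zero]
      exact v.nonneg _
    | succ n ih =>
      have e : a ^ (n + 1) - b ^ (n + 1) = a * (a ^ n - b ^ n) + (a - b) * b ^ n := by ring
      rw [e]
      refine (hna _ _).trans (max_le ?_ ?_)
      · rw [map_mul]
        calc v a * v (a ^ n - b ^ n) ≤ 1 * v (a - b) :=
              mul_le_mul ha ih (v.nonneg _) zero_le_one
          _ = v (a - b) := one_mul _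
      · rw [map_mul, map_pow]
        calc v (a - b) * v b ^ n ≤ v (a - b) * 1 :=
              mul_le_mul_of_nonneg_left (pow_le_one₀ (v.nonneg _) hb) (v.nonneg _)
          _ = v (a - b) := mul_one _
  induction Y using Polynomial.induction_on' with
  | add A B hA hB =>
    have e : Polynomial.aeval a (A + B) - Polynomial.aeval b (A + B) =
        (Polynomial.aeval a A - Polynomial.aeval b A) +
          (Polynomial.aeval a B - Polynomial.aeval b B) := by
      rw [map_add, map_add]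
      ring
    rw [e]
    exact (hna _ _).trans (max_le hA hB)
  | monomial n c =>
    rw [Polynomial.aeval_monomial, Polynomial.aeval_monomial, ← mul_sub, map_mul]
    have hc : v (algebraMap ℤ M c) ≤ 1 := by
      rw [eq_intCast]
      exact hZ c
    calc v (algebraMap ℤ M c) * v (a ^ n - b ^ n) ≤ 1 * v (a - b) :=
          mul_le_mul hc (hpow n) (v.nonneg _) zero_le_one
      _ = v (a - b) := one_mul _

theorem pf_WT : T_VB → T_WT := by
  intro hVB F M _ _ _ _ _ _ p hp v hvp x0 hx0 t T hT ht hc n1 ζ hζ htζ hn1 hTp x hx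
  obtain ⟨hna, hvp0, hint, -, -, hwζ, -⟩ := hVB M p hp v hvp
  set P : ℝ := v.1 (p : M) with hP
  have hlogP : Real.log P < 0 := Real.log_neg hvp0 hvp
  have hT0 : (0 : ℝ) < T := by exact_mod_cast hT
  have hx0t : t x0 ≠ x0 := fun h => ht (hx0.sep t h)
  have hd0 : 0 < v.1 (t x0 - x0) := v.1.pos (sub_ne_zero.2 hx0t)
  -- the displacement of `x0`
  have hd1 : Real.log (v.1 (t x0 - x0)) ≤ 1 / (T : ℝ) * Real.log P := by
    have h1 : 1 / (T : ℝ) ≤ Real.log (v.1 (t x0 - x0)) / Real.log P := hc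
    rwa [le_div_iff_of_neg hlogP] at h1
  have hd2 : v.1 (t x0 - x0) < 1 := by
    rw [← Real.log_neg_iff hd0]
    exact hd1.trans_lt (mul_neg_of_pos_of_neg (by positivity) hlogP)
  have hinv : ∀ y, v.1 (t y) = v.1 y := by
    rcases hx0.dec t with h | h
    · exact h
    · exact absurd h hd2.ne
  have hZ : ∀ m : ℤ, v.1 (m : M) ≤ 1 := fun m => hint _ (by
    have := isIntegral_algebraMap (R := ℤ) (A := M) (x := m)
    rwa [eq_intCast] at this)
  have hvx0 : v.1 x0 ≤ 1 := hint x0 hx0.int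
  have hvtx0 : v.1 (t x0) ≤ 1 := by rw [hinv]; exact hvx0
  -- displacement of integers
  have c1 : ∀ y, v.1 y ≤ 1 → v.1 (t y - y) ≤ v.1 (t x0 - x0) := by
    intro y hy
    obtain ⟨Y, hY⟩ := hx0.den y hy _ hd0
    have e : t y - y = t (y - Polynomial.aeval x0 Y) +
        ((Polynomial.aeval (t x0) Y - Polynomial.aeval x0 Y) + (Polynomial.aeval x0 Y - y)) := by
      have h1 : t (Polynomial.aeval x0 Y) = Polynomial.aeval (t x0) Y :=
        (Polynomial.aeval_algHom_apply (RingHom.toIntAlgHom (t : M →+* M)) x0 Y).symm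
      rw [map_sub, h1]
      ring
    rw [e]
    refine (hna _ _).trans (max_le ?_ ((hna _ _).trans (max_le ?_ ?_)))
    · rw [hinv]
      exact hY
    · exact aeval_sub_le hna hZ hvtx0 hvx0 Y
    · rw [← v.1.map_neg, neg_sub]
      exact hY
  -- the uniformising element `π`
  have hp2 : 2 ≤ p := hp.two_le
  have hw : wv v.1 p (1 - ζ) = 1 / ((p : ℝ) ^ (n1 - 1) * (p - 1)) := hwζ n1 ζ hn1 hζ
  have hpR : (1 : ℝ) < p := by exact_mod_cast hp2
  have hden : 0 < (p : ℝ) ^ (n1 - 1) * (p - 1) := mul_pos (by positivity) (by linarith)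
  have hTR : 2 * (T : ℝ) ≤ (p : ℝ) ^ (n1 - 1) * (p - 1) := by
    have h1 : ((2 * T : ℕ) : ℝ) ≤ ((p ^ (n1 - 1) * (p - 1) : ℕ) : ℝ) := by exact_mod_cast hTp
    push_cast [Nat.cast_sub (by omega : 1 ≤ p)] at h1
    exact h1
  set W : ℝ := wv v.1 p (1 - ζ) with hW
  have hW0 : 0 < W := by rw [hw]; exact one_div_pos.2 hden
  have hW1 : W ≤ 1 / (2 * (T : ℝ)) := by
    rw [hw]
    exact one_div_le_one_div_of_le (by positivity) hTR
  have hπ0 : (1 : M) - ζ ≠ 0 := by
    intro h
    have h1 : W = 0 := by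
      rw [hW, h]
      unfold wv
      rw [map_zero, Real.log_zero, zero_div]
    exact hW0.ne' h1
  have htπ : t (1 - ζ) = 1 - ζ := by rw [map_sub, map_one, htζ]
  have hvπ : 0 < v.1 (1 - ζ) := v.1.pos hπ0
  have hlogπ : Real.log (v.1 (1 - ζ)) = W * Real.log P := by
    rw [hW]
    unfold wv
    rw [div_mul_cancel₀ _ hlogP.ne]
  have hvx : 0 < v.1 x := v.1.pos hx
  -- the reduced element
  set k : ℤ := ⌊(Real.log (v.1 x) / Real.log P) / W⌋ with hk
  have hk1 : (k : ℝ) * W ≤ Real.log (v.1 x) / Real.log P := by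
    rw [← le_div_iff₀ hW0]
    exact Int.floor_le _
  have hk2 : Real.log (v.1 x) / Real.log P < (k + 1 : ℝ) * W := by
    rw [← div_lt_iff₀ hW0]
    exact Int.lt_floor_add_one _
  set x' : M := x * (1 - ζ) ^ (-k) with hx'
  have hx'0 : x' ≠ 0 := mul_ne_zero hx (zpow_ne_zero _ hπ0)
  have hvx' : 0 < v.1 x' := v.1.pos hx'0
  have hlogx' : Real.log (v.1 x') =
      (Real.log (v.1 x) / Real.log P - k * W) * Real.log P := by
    rw [hx', map_mul, map_zpow₀, Real.log_mul hvx.ne' (zpow_ne_zero _ hvπ.ne'), Real.log_zpow,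
      hlogπ, sub_mul, div_mul_cancel₀ _ hlogP.ne]
    push_cast
    ring
  have hvx'1 : v.1 x' ≤ 1 := by
    rw [← Real.log_nonpos_iff hvx'.le, hlogx']
    exact mul_nonpos_of_nonneg_of_nonpos (by linarith) hlogP.le
  have hquot : t x / x = t x' / x' := by
    rw [hx', map_mul, map_zpow₀, htπ, mul_div_mul_right _ _ (zpow_ne_zero _ hπ0)]
  have hkey : v.1 (t x / x - 1) = v.1 (t x' - x') / v.1 x' := by
    rw [hquot, ← map_div₀, sub_div, div_self hx'0]
  have h1 : v.1 (t x' - x') ≤ P ^ (1 / (T : ℝ)) := by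
    refine (c1 x' hvx'1).trans ?_
    rw [← Real.log_le_log_iff hd0 (Real.rpow_pos_of_pos hvp0 _), Real.log_rpow hvp0]
    exact hd1
  have h2 : P ^ (1 / (2 * (T : ℝ))) ≤ v.1 x' := by
    rw [← Real.log_le_log_iff (Real.rpow_pos_of_pos hvp0 _) hvx', Real.log_rpow hvp0, hlogx']
    refine mul_le_mul_of_nonpos_right ?_ hlogP.le
    have h3 : Real.log (v.1 x) / Real.log P - k * W < W := by
      have := hk2
      linarith [add_mul (k : ℝ) 1 W]
    linarith
  rw [hkey, div_le_iff₀ hvx']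
  have e3 : ((2 * T : ℕ) : ℝ) = 2 * (T : ℝ) := by push_cast; ring
  rw [e3]
  calc v.1 (t x' - x') ≤ P ^ (1 / (T : ℝ)) := h1
    _ = P ^ (1 / (2 * (T : ℝ))) * P ^ (1 / (2 * (T : ℝ))) := by
        rw [← Real.rpow_add hvp0]
        congr 1
        field_simp
        norm_num
    _ ≤ P ^ (1 / (2 * (T : ℝ))) * v.1 x' :=
        mul_le_mul_of_nonneg_left h2 (Real.rpow_nonneg hvp0.le _)

end Pool.Agent.H81.RD
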