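import Pool.Agent.H82.RD.Targets
import Pool.Agent.H82.RD.Basic

/-!
# Row MZ0: the machine in dimension zero
-/

set_option autoImplicit false

namespace Pool.Agent.H81.RD

open Pool.Agent.H82.RD

theorem pf_MZ0 : T_MZ0 := by
  intro q hq ι S W π den num ζ κ e g D H hM hH
  obtain ⟨hπ, hinj, -, -, -, hg1, hqg, hz⟩ := hM
  rw [Finset.card_le_one]
  intro s hs s' hs'
  rcases le_or_gt e κ with hek | hek
  · rw [Nat.sub_eq_zero_of_le hek, pow_zero] at hH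
    have := (hπ s hs).1
    have := (hπ s hs).2
    omega
  obtain ⟨z, h1, h2⟩ := hz s hs s' hs'
  have hq0 : (q : ℤ_[q]) ≠ 0 := by exact_mod_cast hq.1.ne_zero
  rw [Finset.univ_eq_empty, Finset.sum_empty, sub_zero,
    show e = κ + (e - κ) by omega, pow_add] at h2
  have h3 : (q : ℤ_[q]) ^ (e - κ) ∣ (z : ℤ_[q]) :=
    (mul_dvd_mul_iff_left (pow_ne_zero κ hq0)).1 h2
  have h4 : (q : ℤ) ^ (e - κ) ∣ (z : ℤ) := by
    rw [← PadicInt.pow_p_dvd_int_iff]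
    exact_mod_cast h3
  have h5 : q ^ (e - κ) ∣ z := by exact_mod_cast h4
  obtain ⟨m, rfl⟩ := h5
  have h6 : (q : ℤ_[q]) ∣ (g : ℤ_[q]) - 1 := by
    have h := (Nat.cast_dvd_cast (α := ℤ_[q]) hqg)
    rwa [Nat.cast_sub hg1, Nat.cast_one] at h
  have h7 : (q : ℤ_[q]) ^ (e - κ + 1) ∣ (g : ℤ_[q]) ^ q ^ (e - κ) - 1 ^ q ^ (e - κ) :=
    dvd_sub_pow_of_dvd_sub h6 (e - κ)
  have h8 : (q : ℤ_[q]) ^ (e - κ) ∣ (g : ℤ_[q]) ^ (q ^ (e - κ) * m) - 1 := by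
    have h9 := sub_dvd_pow_sub_pow ((g : ℤ_[q]) ^ q ^ (e - κ)) (1 ^ q ^ (e - κ)) m
    rw [← pow_mul, one_pow, one_pow] at h9
    rw [one_pow] at h7
    exact ((pow_dvd_pow _ (Nat.le_succ _)).trans h7).trans h9
  have h10 : (q : ℤ_[q]) ^ (e - κ) ∣ (π s : ℤ_[q]) - (π s' : ℤ_[q]) := by
    have h11 := (pow_dvd_pow (q : ℤ_[q]) (Nat.sub_le e κ)).trans h1
    have h12 := h8.mul_left (π s' : ℤ_[q])
    have h13 := dvd_add h11 h12
    have h14 : (π s : ℤ_[q]) - (π s' : ℤ_[q]) * (g : ℤ_[q]) ^ (q ^ (e - κ) * m) +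
        (π s' : ℤ_[q]) * ((g : ℤ_[q]) ^ (q ^ (e - κ) * m) - 1) =
        (π s : ℤ_[q]) - (π s' : ℤ_[q]) := by ring
    rwa [h14] at h13
  have h15 : (q : ℤ) ^ (e - κ) ∣ (π s : ℤ) - (π s' : ℤ) := by
    rw [← PadicInt.pow_p_dvd_int_iff]
    push_cast
    exact h10
  have h16 : (π s : ℤ) - (π s' : ℤ) = 0 := by
    apply Int.eq_zero_of_abs_lt_dvd h15
    have h17 : (H : ℤ) < (q : ℤ) ^ (e - κ) := by exact_mod_cast hH
    have e1 := hπ s hs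
    have e2 := hπ s' hs'
    rw [abs_lt]
    constructor <;> omega
  exact hinj hs hs' (by omega)

end Pool.Agent.H81.RD
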